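import Pool.Agent.H601R2.ExactChain

set_option autoImplicit false

open Finset

namespace Pool.Agent.Results.MP_77cbc6_nt.ExactRoughParity

/-- `c j n = 2 ^ j (n + 1) - 1`, the chain `n, 2 n + 1, 4 n + 3, ...` of the first kind. -/
def c (j n : ℕ) : ℕ := 2 ^ j * (n + 1) - 1

/-- **Almost prime chains of the first kind of exact length `k`, with prescribed parity.**
Let `k` be a length, `S` a set of an odd number of positions `j < k` and `ε > 0`. There are `R` and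
`δ > 0` such that for all large `x` at least `x ^ (1 - ε)` positive integers `n ≤ x` satisfy: the terms
`c 0 n, ..., c (k-1) n` are products of at most `R` primes, all larger than `x ^ δ`, the next term
`c k n` is composite, and the product of the `c j n` with `j ∈ S` has an odd number of prime factors
(counted with multiplicity); and the same holds with even in place of odd. -/
theorem result (k : ℕ) (S : Finset ℕ) (hS : S ⊆ range k) (hodd : Odd S.card) (ε : ℝ) (hε : 0 < ε) :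
    ∃ (R : ℕ) (δ : ℝ), 0 < δ ∧ ∃ x₀ : ℝ, ∀ x : ℝ, x₀ ≤ x →
    x ^ (1 - ε) ≤ ({n : ℕ | 0 < n ∧ (n : ℝ) ≤ x ∧
      (∀ j < k, ArithmeticFunction.cardFactors (c j n) ≤ R ∧
        ∀ p : ℕ, p.Prime → p ∣ c j n → x ^ δ < p) ∧
      (1 < c k n ∧ ¬ (c k n).Prime) ∧
      Odd (∑ j ∈ S, ArithmeticFunction.cardFactors (c j n))}.ncard : ℝ) ∧
    x ^ (1 - ε) ≤ ({n : ℕ | 0 < n ∧ (n : ℝ) ≤ x ∧
      (∀ j < k, ArithmeticFunction.cardFactors (c j n) ≤ R ∧
        ∀ p : ℕ, p.Prime → p ∣ c j n → x ^ δ < p) ∧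
      (1 < c k n ∧ ¬ (c k n).Prime) ∧
      Even (∑ j ∈ S, ArithmeticFunction.cardFactors (c j n))}.ncard : ℝ) := by
  have hc : ∀ j n : ℕ, Pool.Agent.H601R2.ExactChain.C 1 j n = ((c j n : ℕ) : ℤ) := by
    intro j n
    have h1 : 1 ≤ 2 ^ j * (n + 1) := Nat.one_le_iff_ne_zero.2 (by positivity)
    unfold Pool.Agent.H601R2.ExactChain.C c
    rw [Nat.cast_sub h1]
    push_cast
    ring
  obtain ⟨R, δ, hδ, x₀, h⟩ :=
    Pool.Agent.H601R2.ExactChain.core 1 (Or.inl rfl) k S hS hodd ε hε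
  refine ⟨R, δ, hδ, x₀, fun x hx => ?_⟩
  have hfin : ∀ P : ℕ → Prop, {n : ℕ | 0 < n ∧ (n : ℝ) ≤ x ∧ P n}.Finite := fun P =>
    (Set.finite_Iic ⌊x⌋₊).subset fun n hn => Nat.le_floor hn.2.1
  have hgood : ∀ n : ℕ, Pool.Agent.H601R2.ExactChain.Good 1 k R (x ^ δ) n →
      (∀ j < k, ArithmeticFunction.cardFactors (c j n) ≤ R ∧
        ∀ p : ℕ, p.Prime → p ∣ c j n → x ^ δ < p) ∧ (1 < c k n ∧ ¬ (c k n).Prime) := by
    rintro n ⟨h1, h2, h3⟩
    rw [hc] at h2 h3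
    refine ⟨fun j hj => ?_, ?_, ?_⟩
    · obtain ⟨-, h5, h6⟩ := h1 j hj
      rw [hc] at h5 h6
      rw [Int.natAbs_natCast] at h5
      exact ⟨h5, fun p hp hpd => h6 p hp (Int.natCast_dvd_natCast.2 hpd)⟩
    · exact_mod_cast h2
    · rwa [Int.natAbs_natCast] at h3
  obtain ⟨k1, k2⟩ := h x hx
  constructor
  · refine k1.trans (Nat.cast_le.2 (Set.ncard_le_ncard ?_ (hfin _)))
    rintro n ⟨h1, h2, h3, h4⟩
    have h5 := hgood n h3
    simp only [hc, Int.natAbs_natCast] at h4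
    exact ⟨h1, h2, h5.1, h5.2, h4⟩
  · refine k2.trans (Nat.cast_le.2 (Set.ncard_le_ncard ?_ (hfin _)))
    rintro n ⟨h1, h2, h3, h4⟩
    have h5 := hgood n h3
    simp only [hc, Int.natAbs_natCast] at h4
    exact ⟨h1, h2, h5.1, h5.2, h4⟩

end Pool.Agent.Results.MP_77cbc6_nt.ExactRoughParity
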