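import Mathlib
import Pool.Agent.H361R2.InfCor2

/-! An infinite exact pattern of primes in first kind Cunningham orbits started at a prime. -/

theorem Pool.Agent.Results.MP_77cbc6_nt.InfinitePattern.result :
    ∀ ε : ℝ, 0 < ε → ∃ E : Set ℕ, 0 ∈ E ∧
      (∃ᶠ X : ℕ in Filter.atTop, (Real.log X) ^ (1 - ε) ≤ ((E ∩ Set.Iio X).ncard : ℝ)) ∧
      ∀ M : ℕ, {p : ℕ | ∀ j ≤ M, (Nat.Prime (2 ^ j * (p + 1) - 1) ↔ j ∈ E)}.Infinite :=
  fun ε hε => Pool.Agent.H361R2.Inf.first_kind_prime ε hε
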